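import Pool.Agent.Helper8_HK.Stmt3
import Pool.Agent.Helper19_HK.LAU
import Pool.Agent.Helper47_HK.MTX

/-! Squad HK, module CUS: the cochain of a doubly cuspidal form is cuspidal. -/

namespace Pool.Agent.HK.H31

open Polynomial Filter

theorem emb_ne {F : Type} [Field F] {n : F[X]} (hn : n ≠ 0) : emb F n ≠ 0 := by
  intro h
  obtain ⟨-, -, -, -, -, -, -, -, -, -, -, h12, -⟩ := H19.lau F
  refine hn (h12 n ?_)
  rw [h]
  intro i _
  exact HahnSeries.coeff_zero

theorem unif_ne (F : Type) [Field F] : unif F ≠ 0 := by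
  obtain ⟨-, -, -, -, -, h6, -⟩ := H19.lau F
  exact h6

/-- module CUS -/
theorem cus (hBNC : BNCStmt) (hHOL : HOLStmt) (hKHA : KHAStmt) (hEXP : EXPStmt) (hUNQ : UNQStmt)
    (hSLA : SLAStmt) : CUSStmt := by
  intro F _ _ C _ _ _ _ ι ρ hc n hmon hirr f hf
  have ok : NormOK ι := hc.ok
  have hn0 : n ≠ 0 := hmon.ne_zero
  obtain ⟨B, hB⟩ := hBNC F C ι ok n hmon hirr f hf
  obtain ⟨hK1, -, -⟩ := hKHA F C ι ρ hc
  obtain ⟨m1, m2, m3, -, m5, -, -, -, -, -, -, m12, m13, m14, -, -, -⟩ := H47.mtx F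
  obtain ⟨hharm, hkap, hinv, -⟩ := hK1 f hf.off hf.holo
  obtain ⟨-, hS⟩ := hSLA F C ι ok
  obtain ⟨hoff, hcoc, hone, -, -, hbd⟩ := hS f hf.off
  have hu0 : unif F ≠ 0 := unif_ne F
  refine ⟨hharm, hinv n hf.modular, ?_, ?_⟩
  · -- the cusp at infinity
    have hper : ∀ a : F[X], slash ι (mat 1 (emb F (1 * a)) 0 1) f = f := by
      intro a
      obtain ⟨γ, hγ, hγe⟩ := m14 (1 * a) n
      rw [← hγe]
      exact hf.modular γ hγ
    obtain ⟨m, hm, hm0, -⟩ := hEXP F C ι ρ hc f B 1 hf.off hf.holo hB one_ne_zero hper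
    obtain ⟨a, -, ha1, ha⟩ := hf.cusp 1
    have hdv : n ∣ (1 : GLA F) 1 0 := by
      have : (1 : GLA F) 1 0 = 0 := by simp
      rw [this]
      exact dvd_zero n
    rw [if_pos hdv, map_one, hone] at ha
    have hEq := hUNQ F C ι ok 1 1 f a _ one_ne_zero one_ne_zero ha hm
    have h1 : m 0 = 0 := by
      have := congrFun hEq 1
      rw [ha1] at this
      simpa using this.symm
    unfold val
    rw [zpow_one]
    rw [map_one, mul_one] at hm0
    rw [← hm0]
    exact h1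
  · -- the cusp at zero
    obtain ⟨γ0, g00, g01, g10, g11⟩ := m13 0 (-1) 1 0 (by simp)
    set h : C → C := slash ι (toK γ0) f with hh
    have hγ0 : (toK γ0 : GLK F) = mat 0 (-1) 1 0 := by
      obtain ⟨e1, e2, e3, e4⟩ := m12 γ0
      rw [(m2 (toK γ0)).1, e1, e2, e3, e4, g00, g01, g10, g11]
      simp
    have hhoff : Off ι h := hoff _
    have hhol : IsHolo ι h := (hHOL F C ι ok f hf.holo).1 _
    have hhB : BddI ι B h := hbd B _ hB
    have hper : ∀ a : F[X], slash ι (mat 1 (emb F (n * a)) 0 1) h = h := by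
      intro a
      obtain ⟨γ, k00, k01, k10, k11⟩ := m13 1 0 (-(n * a)) 1 (by simp)
      have hγ : γ ∈ Gam0 n := by
        show n ∣ γ 1 0
        rw [k10]
        exact (Dvd.intro a rfl).neg_right
      have hγe : (toK γ : GLK F) = mat 1 0 (-(emb F (n * a))) 1 := by
        obtain ⟨e1, e2, e3, e4⟩ := m12 γ
        rw [(m2 (toK γ)).1, e1, e2, e3, e4, k00, k01, k10, k11]
        simp
      have hprod : (toK γ0 : GLK F) * mat 1 (emb F (n * a)) 0 1 = toK γ * toK γ0 := by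
        rw [hγ0, hγe, m3 _ _ _ _ _ _ _ _ (by simp) (by simp), m3 _ _ _ _ _ _ _ _ (by simp) (by simp)]
        congr 1 <;> ring
      rw [hh, ← hcoc, hprod, hcoc, hf.modular γ hγ]
    obtain ⟨m, hm, hm0, -⟩ := hEXP F C ι ρ hc h B n hhoff hhol hhB hn0 hper
    obtain ⟨a, -, ha1, ha⟩ := hf.cusp γ0
    have hdv : ¬ n ∣ γ0 1 0 := by
      rw [g10]
      intro hd
      exact hirr.not_isUnit (isUnit_of_dvd_one hd)
    rw [if_neg hdv] at ha
    have hEq := hUNQ F C ι ok 1 n h a _ one_ne_zero hn0 ha hm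
    have h1 : m 0 = 0 := by
      have := congrFun hEq 1
      rw [ha1] at this
      simpa using this.symm
    have hn1 : emb F n ≠ 0 := emb_ne hn0
    have e1 : kap ι ρ h (mat (unif F * emb F n) 0 0 1)
        = kap ι ρ f (toK γ0 * mat (unif F * emb F n) 0 0 1) := hkap _ _
    have e2 : (toK γ0 : GLK F) * mat (unif F * emb F n) 0 0 1 = Wmat n * mat (unif F) 0 0 1 := by
      unfold Wmat
      rw [hγ0, m3 _ _ _ _ _ _ _ _ (by simp) (by simp [hu0, hn1]),
        m3 _ _ _ _ _ _ _ _ (by simp [hn1]) (by simp [hu0])]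
      congr 1 <;> ring
    unfold val atk
    rw [zpow_one, ← e2, ← e1, ← hm0]
    exact h1

end Pool.Agent.HK.H31
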